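import Mathlib
import Pool.Agent.R10.CPETLib

/-!
A CPET tree (maximum degree four, a connected partition of every type) with two vertices of
degree four.  It has 61 vertices: `v` carries two leaves and a path with 30 vertices, a path with
12 vertices joins `v` to `w`, and `w` carries a leaf, a path with 2 vertices and a path with 12
vertices.
-/

namespace Pool.Agent.Results.MP_d6ea2c_co.TwoDegreeFour

open Finset Pool.Agent.R10.CPETLib

/-- the parent of a vertex: `0..29` is a path, `30` is `v` with leaves `31`, `32`, then `33..44` is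
the path from `v` to `w = 45`, which has the leaf `46`, the leg `47, 48` and the leg `49..60` -/
def par (i : ℕ) : ℕ :=
  if i = 31 ∨ i = 32 ∨ i = 33 then 30
  else if i = 46 ∨ i = 47 ∨ i = 49 then 45
  else i - 1

/-- the tree -/
def tree : SimpleGraph (Fin 61) where
  Adj a b := a ≠ b ∧ (par a = b ∨ par b = a)
  symm := ⟨fun _ _ h => ⟨h.1.symm, h.2.symm⟩⟩
  loopless := ⟨fun _ h => h.1 rfl⟩

instance : DecidableRel tree.Adj := fun a b =>
  inferInstanceAs (Decidable (a ≠ b ∧ (par a = b ∨ par b = a)))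

/-- the parent as a vertex -/
def parF (v : Fin 61) : Fin 61 := ⟨par v, by
  have := v.isLt
  unfold par
  split_ifs <;> omega⟩

/-- vertex with a given number, first numbering -/
def vert1 (i : ℕ) : Fin 61 := if h : i < 61 then ⟨i, h⟩ else 0

/-- first numbering -/
def pos1 (v : Fin 61) : ℕ := v

/-- first rule -/
def c1 (L _R : ℕ) : Bool :=
  !(Nat.beq L 31 || (Nat.beq L 32 || (Nat.beq L 46 || (Nat.beq L 47 || Nat.beq L 48))))

/-- second numbering: the leg `47, 48` comes last -/
def pos2 (v : Fin 61) : ℕ :=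
  if (v : ℕ) ≤ 46 then v else if (v : ℕ) = 47 then 59 else if (v : ℕ) = 48 then 60 else v - 2

/-- vertex with a given number, second numbering -/
def vert2 (i : ℕ) : Fin 61 :=
  if h : i < 61 then
    (if i ≤ 46 then ⟨i, h⟩ else if i = 59 then 47 else if i = 60 then 48 else vert1 (i + 2))
  else 0

/-- second rule -/
def c2 (L R : ℕ) : Bool :=
  !(Nat.beq L 31 || (Nat.beq L 32 || Nat.beq L 46)) &&
    (Nat.ble R 59 || (Nat.beq L 59 && Nat.ble R 61))

lemma beqf (a b : ℕ) : Nat.beq a b = false ↔ a ≠ b := by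
  rw [← Bool.not_eq_true, Nat.beq_eq]

lemma c1_iff (L R : ℕ) :
    c1 L R = true ↔ (L ≠ 31 ∧ L ≠ 32 ∧ L ≠ 46 ∧ L ≠ 47 ∧ L ≠ 48) := by
  simp [c1, beqf]

lemma c2_iff (L R : ℕ) :
    c2 L R = true ↔ (L ≠ 31 ∧ L ≠ 32 ∧ L ≠ 46) ∧ (R ≤ 59 ∨ (L = 59 ∧ R ≤ 61)) := by
  simp [c2, beqf]

/-- pairs of parts that are merged -/
def gp (k p : ℕ) : Bool :=
  !((fun d => Nat.beq d 0 || (Nat.beq d 1 || (Nat.beq d 2 || (Nat.beq d 14 || (Nat.beq d 15 ||
    (Nat.beq d 16 || Nat.beq d 17)))))) ((k - p) + (p - k)))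

lemma gp_merge (k p : ℕ) (hk : 2 ≤ k) (hp : 2 ≤ p) (h : gp k p = true) :
    Mergeable c1 k p ∧ Mergeable c2 k p := by
  have h' : (k - p) + (p - k) ≠ 0 ∧ (k - p) + (p - k) ≠ 1 ∧ (k - p) + (p - k) ≠ 2 ∧
      (k - p) + (p - k) ≠ 14 ∧ (k - p) + (p - k) ≠ 15 ∧ (k - p) + (p - k) ≠ 16 ∧
      (k - p) + (p - k) ≠ 17 := by
    simp only [gp, Bool.not_eq_true', Bool.or_eq_false_iff, beqf] at h
    tauto
  constructor
  · intro L hL
    rw [c1_iff] at hL ⊢
    simp only [c1_iff]
    omega
  · intro L hL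
    rw [c2_iff] at hL ⊢
    simp only [c2_iff]
    omega

lemma real1 : Realises tree c1 61 vert1 pos1 parF where
  vert_pos v := by
    have := v.isLt
    simp [vert1, pos1]
  pos_vert i hi := by simp [vert1, pos1, hi]
  pos_lt v := v.isLt
  adj := by decide +kernel
  conn L R hc v h1 h2 := by
    rw [c1_iff] at hc
    have := v.isLt
    simp only [pos1, parF, par] at *
    split_ifs <;> omega

lemma real2 : Realises tree c2 61 vert2 pos2 parF where
  vert_pos := by decide +kernel
  pos_vert := by decide +kernel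
  pos_lt := by decide +kernel
  adj := by decide +kernel
  conn L R hc v h1 h2 := by
    rw [c2_iff] at hc
    have := v.isLt
    simp only [pos2, parF, par] at *
    split_ifs at * <;> omega

set_option maxRecDepth 100000 in
lemma check : chk gp (leafTest c1 c2 80) 130 61 2 [] = true := by decide +kernel

lemma has_all (s : Multiset ℕ) (hs : ∀ x ∈ s, 1 ≤ x) (hsum : s.sum = 61) :
    HasConnectedPartition tree s :=
  has_of_check real1 real2 (by norm_num) gp_merge check s hs hsum

/-- There is a CPET tree (on 61 vertices) with two different vertices of degree `4`. -/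
theorem result : ∃ T : SimpleGraph (Fin 61), ∃ _ : DecidableRel T.Adj,
    IsCPET T ∧ ∃ v w : Fin 61, v ≠ w ∧ T.degree v = 4 ∧ T.degree w = 4 := by
  refine ⟨tree, inferInstance, ⟨?_, by decide +kernel, ?_⟩, 30, 45, by decide, by decide +kernel,
    by decide +kernel⟩
  · rw [SimpleGraph.isTree_iff_connected_and_card]
    refine ⟨real1.connected (by norm_num) (by decide), ?_⟩
    rw [Nat.card_eq_fintype_card, Nat.card_eq_fintype_card, ← SimpleGraph.edgeFinset_card]
    decide +kernel
  · intro q
    exact has_all q.parts (fun x hx => q.parts_pos hx) (q.parts_sum.trans (Fintype.card_fin 61))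

end Pool.Agent.Results.MP_d6ea2c_co.TwoDegreeFour
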